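import Mathlib
import Pool.Agent.NCC.All

/-!
# Eigenvalues of a normal matrix and of its normal compressions, all sizes (MP_ca8ee9_an)
-/

set_option autoImplicit false
open scoped Matrix Polynomial

namespace Pool.Agent.Results.MP_ca8ee9_an.AllSizes

open Matrix Polynomial Filter Topology

/-- The pair of tuples `(a, b)` is realizable: there are normal matrices `A` and `B` with
eigenvalues `a` and `b` (with multiplicity) such that `A` is a compression of `B`. -/
def Realizable {k n : ℕ} (a : Fin k → ℂ) (b : Fin n → ℂ) : Prop :=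
  ∃ (A : Matrix (Fin k) (Fin k) ℂ) (B : Matrix (Fin n) (Fin n) ℂ) (V : Matrix (Fin n) (Fin k) ℂ),
    Aᴴ * A = A * Aᴴ ∧ Bᴴ * B = B * Bᴴ ∧ Vᴴ * V = 1 ∧ A = Vᴴ * B * V ∧
    A.charpoly = ∏ i, (X - C (a i)) ∧ B.charpoly = ∏ j, (X - C (b j))

/-- The multiset of entries of a tuple. -/
def entries {k : ℕ} (a : Fin k → ℂ) : Multiset ℂ := (Finset.univ : Finset (Fin k)).val.map a

/-! ### Curves with charges -/

open Classical in
/-- How many times `z` occurs in `b`, minus how many times it occurs in `a`. -/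
noncomputable def weight {k n : ℕ} (a : Fin k → ℂ) (b : Fin n → ℂ) (z : ℂ) : ℤ :=
  ((entries b).count z : ℤ) - (entries a).count z

/-- For a real polynomial `F (x, y)`, written as a polynomial in `y` over `ℝ[x]`: the polynomial
`F (x, ·)` in `y`, for a real number `x`. -/
noncomputable def slice (F : ℝ[X][X]) (x : ℝ) : ℝ[X] := F.map (evalRingHom x)

/-- `F (x, y)` is monic of degree `c` in `y` and has total degree `c`. -/
def Curve (c : ℕ) (F : ℝ[X][X]) : Prop :=
  F.Monic ∧ F.natDegree = c ∧ ∀ j, F.coeff j ≠ 0 → (F.coeff j).natDegree + j ≤ c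

/-- The sum of `s x y` over the real roots `y` of `F (x, ·)` with `y₁ < y < y₂`. -/
noncomputable def total (F : ℝ[X][X]) (s : ℝ → ℝ → ℤ) (x y₁ y₂ : ℝ) : ℤ :=
  ∑ y ∈ (slice F x).roots.toFinset.filter (fun y => y₁ < y ∧ y < y₂), s x y

/-- `s` is an admissible charge, with sources given by `w`, on the real curve `F (x, y) = 0` of
degree `c`. -/
structure Charge (c : ℕ) (F : ℝ[X][X]) (w : ℂ → ℤ) (s : ℝ → ℝ → ℤ) : Prop where
  /-- `F` is monic in `y` of degree `c` and of total degree `c` -/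
  curve : Curve c F
  /-- different points with nonzero weight have different real parts -/
  inj : ∀ z z' : ℂ, w z ≠ 0 → w z' ≠ 0 → z.re = z'.re → z = z'
  /-- `|s x y| ≤ m` and `s x y ≡ m (mod 2)`, where `m` is the multiplicity of the root `y` of
  `F (x, ·)`, which is `0` if `y` is no root -/
  bound : ∀ x y : ℝ, |s x y| ≤ (slice F x).rootMultiplicity y ∧
    (s x y - (slice F x).rootMultiplicity y) % 2 = 0
  /-- conservation: the total charge between two non-roots is locally constant in `x` -/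
  loc : ∀ x₀ y₁ y₂ : ℝ, (∀ z : ℂ, w z ≠ 0 → z.re ≠ x₀) → y₁ < y₂ → (slice F x₀).eval y₁ ≠ 0 →
    (slice F x₀).eval y₂ ≠ 0 → ∀ᶠ x : ℝ in 𝓝 x₀, total F s x y₁ y₂ = total F s x₀ y₁ y₂
  /-- sources: at a point `z` with nonzero weight it increases by `2 * w z` if `z` is in the window,
  and does not change otherwise -/
  cross : ∀ z : ℂ, w z ≠ 0 → ∀ y₁ y₂ : ℝ, y₁ < y₂ → (slice F z.re).eval y₁ ≠ 0 →
    (slice F z.re).eval y₂ ≠ 0 → ∀ᶠ h : ℝ in 𝓝[>] 0,
      total F s (z.re + h) y₁ y₂ - total F s (z.re - h) y₁ y₂ =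
        if y₁ < z.im ∧ z.im < y₂ then 2 * w z else 0
  /-- the sum over all real roots is `c` far right and `- c` far left -/
  far : ∃ M : ℝ, ∀ x : ℝ, (M ≤ x → ∑ y ∈ (slice F x).roots.toFinset, s x y = c) ∧
    (x ≤ -M → ∑ y ∈ (slice F x).roots.toFinset, s x y = -c)

/-! ### Regular pairs of polynomials -/

/-- The leading form of a real polynomial in two variables. -/
noncomputable def lead (f : MvPolynomial (Fin 2) ℝ) : MvPolynomial (Fin 2) ℝ :=
  MvPolynomial.homogeneousComponent f.totalDegree f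

/-- The Jacobian determinant. -/
noncomputable def jac (f g : MvPolynomial (Fin 2) ℝ) : MvPolynomial (Fin 2) ℝ :=
  MvPolynomial.pderiv 0 f * MvPolynomial.pderiv 1 g -
    MvPolynomial.pderiv 1 f * MvPolynomial.pderiv 0 g

/-- `z = x + i y` is a common zero: `f (x, y) = g (x, y) = 0`. -/
def IsZero (f g : MvPolynomial (Fin 2) ℝ) (z : ℂ) : Prop :=
  MvPolynomial.eval ![z.re, z.im] f = 0 ∧ MvPolynomial.eval ![z.re, z.im] g = 0

/-- The leading forms of `f` and `g` have no common zero in `ℂ²` except `0`, and at the common real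
zeros of `f` and `g` the Jacobian determinant is not zero. -/
def Regular (f g : MvPolynomial (Fin 2) ℝ) : Prop :=
  (∀ v : Fin 2 → ℂ, MvPolynomial.aeval v (lead f) = 0 → MvPolynomial.aeval v (lead g) = 0 → v = 0) ∧
  ∀ z : ℂ, IsZero f g z → MvPolynomial.eval ![z.re, z.im] (jac f g) ≠ 0

/-- `a` lists without repetition the common real zeros of `f` and `g` with negative Jacobian
determinant, and `b` those with positive Jacobian determinant. -/
def Lists (f g : MvPolynomial (Fin 2) ℝ) {k n : ℕ} (a : Fin k → ℂ) (b : Fin n → ℂ) : Prop :=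
  Function.Injective a ∧ Function.Injective b ∧
  (∀ z : ℂ, z ∈ Set.range a ↔ IsZero f g z ∧ MvPolynomial.eval ![z.re, z.im] (jac f g) < 0) ∧
  (∀ z : ℂ, z ∈ Set.range b ↔ IsZero f g z ∧ 0 < MvPolynomial.eval ![z.re, z.im] (jac f g))

/-! ### The result -/

theorem weight_eq {k n : ℕ} (a : Fin k → ℂ) (b : Fin n → ℂ) (z : ℂ) :
    weight a b z = NCC.wt a b z := by
  rw [NCC.Fin_wt]
  rfl

theorem charge_iff {k n c : ℕ} (a : Fin k → ℂ) (b : Fin n → ℂ) (F : ℝ[X][X]) (s : ℝ → ℝ → ℤ) :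
    Charge c F (weight a b) s ↔ NCC.Charge c F (NCC.wt a b) s := by
  have hs : ∀ z : ℂ, z ∈ (NCC.wt a b).support ↔ weight a b z ≠ 0 := by
    intro z
    rw [Finsupp.mem_support_iff, weight_eq]
  constructor
  · intro h
    refine ⟨h.curve.1, h.curve.2.1, h.curve.2.2, ?_, h.bound, ?_, ?_, h.far⟩
    · intro z hz z' hz' e
      exact h.inj z z' ((hs z).1 hz) ((hs z').1 hz') e
    · intro x₀ y₁ y₂ hx h1 h2 h3
      exact h.loc x₀ y₁ y₂ (fun z hz => hx z ((hs z).2 hz)) h1 h2 h3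
    · intro z hz y₁ y₂ h1 h2 h3
      have h4 := h.cross z ((hs z).1 hz) y₁ y₂ h1 h2 h3
      rw [weight_eq] at h4
      exact h4
  · intro h
    refine ⟨⟨h.monic, h.deg, h.td⟩, ?_, h.bound, ?_, ?_, h.far⟩
    · intro z z' hz hz' e
      exact h.inj z ((hs z).2 hz) z' ((hs z').2 hz') e
    · intro x₀ y₁ y₂ hx h1 h2 h3
      exact h.loc x₀ y₁ y₂ (fun z hz => hx z ((hs z).1 hz)) h1 h2 h3
    · intro z hz y₁ y₂ h1 h2 h3
      have h4 := h.cross z ((hs z).2 hz) y₁ y₂ h1 h2 h3
      rw [← weight_eq] at h4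
      exact h4

theorem set_eq (K c : ℕ) : {p : (Fin K → ℂ) × (Fin (K + c) → ℂ) |
    ∃ f g : MvPolynomial (Fin 2) ℝ, f.totalDegree = c ∧ Regular f g ∧ Lists f g p.1 p.2} =
      NCC.LS K c := by
  ext p
  constructor
  · rintro ⟨f, g, h1, h2, h3⟩
    exact ⟨f, g, ⟨h2.1, h2.2⟩, h1, h3⟩
  · rintro ⟨f, g, h1, h2, h3⟩
    exact ⟨f, g, h2, ⟨h1.lead, h1.simple⟩, h3⟩

/-- Complete solution: a pair `(a, b)` of tuples of length `k` and `k + c` is realizable if and only
if, in some rotated coordinates, there is a real curve of degree `c` with an admissible charge whose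
sources are given by the multiplicities in `b` minus those in `a`; equivalently, in the coordinates
rotated by any number of modulus one outside some finite set; equivalently, up to common entries,
`(a, b)` is a limit of pairs listed by regular pairs of polynomials, the first of degree `c`. -/
theorem result (k c : ℕ) (a : Fin k → ℂ) (b : Fin (k + c) → ℂ) :
    List.TFAE [
      Realizable a b,
      ∃ (ω : ℂ) (F : ℝ[X][X]) (s : ℝ → ℝ → ℤ), ‖ω‖ = 1 ∧
        Charge c F (weight (fun j => ω * a j) (fun l => ω * b l)) s,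
      ∃ Φ : Finset ℂ, ∀ ω : ℂ, ‖ω‖ = 1 → ω ∉ Φ → ∃ (F : ℝ[X][X]) (s : ℝ → ℝ → ℤ),
        Charge c F (weight (fun j => ω * a j) (fun l => ω * b l)) s,
      ∃ (K : ℕ) (a' : Fin K → ℂ) (b' : Fin (K + c) → ℂ),
        entries a + entries b' = entries a' + entries b ∧
        (a', b') ∈ closure {p : (Fin K → ℂ) × (Fin (K + c) → ℂ) |
          ∃ f g : MvPolynomial (Fin 2) ℝ, f.totalDegree = c ∧ Regular f g ∧ Lists f g p.1 p.2}] := by
  have hR : Realizable a b ↔ Pool.Agent.Helper45.NC.Dil a b :=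
    Pool.Agent.Helper45.NC.realizable_iff a b
  tfae_have 1 → 3 := by
    intro h
    obtain ⟨Φ, hΦ⟩ := NCC.Fin_sig NCC.NM_holds a b (hR.1 h)
    refine ⟨Φ, fun ω hω hω' => ?_⟩
    obtain ⟨F, nn, hS⟩ := hΦ ω hω hω'
    obtain ⟨s, hs⟩ := NCC.thm_SD c F _ nn hS
    exact ⟨F, s, (charge_iff _ _ F s).2 hs⟩
  tfae_have 3 → 2 := by
    rintro ⟨Φ, hΦ⟩
    obtain ⟨ω, hω, hω'⟩ := NCC.Fin_unit Φ
    obtain ⟨F, s, hs⟩ := hΦ ω hω hω'
    exact ⟨ω, F, s, hω, hs⟩
  tfae_have 2 → 1 := by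
    rintro ⟨ω, F, s, hω, hs⟩
    exact hR.2 (NCC.Fin_of_charge NCC.thm_DS NCC.NA_holds NCC.thm_NB NCC.SC_holds NCC.thm_Clo a b ω
      F s hω ((charge_iff _ _ F s).1 hs))
  tfae_have 1 → 4 := by
    intro h
    obtain ⟨K, a', b', h1, h2⟩ := NCC.Fin_nec NCC.NM_holds NCC.NA_holds NCC.thm_NB NCC.thm_Rt a b
      (hR.1 h)
    refine ⟨K, a', b', h1, ?_⟩
    rw [set_eq]
    exact h2
  tfae_have 4 → 1 := by
    rintro ⟨K, a', b', h1, h2⟩
    rw [set_eq] at h2
    exact hR.2 (NCC.Fin_suff NCC.SC_holds NCC.thm_Clo a b a' b' h1 h2)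
  tfae_finish

end Pool.Agent.Results.MP_ca8ee9_an.AllSizes
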