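import Mathlib
import Pool.Agent.MCT.Final

set_option autoImplicit false
open scoped Matrix Polynomial

namespace Pool.Agent.Results.MP_ca8ee9_an.Caratheodory

open Matrix Polynomial

/-- The pair of tuples `(a, b)` is realizable: there are normal matrices `A` and `B` with
eigenvalues `a` and `b` (with multiplicity) such that `A` is a compression of `B`. -/
def Realizable {k n : ℕ} (a : Fin k → ℂ) (b : Fin n → ℂ) : Prop :=
  ∃ (A : Matrix (Fin k) (Fin k) ℂ) (B : Matrix (Fin n) (Fin n) ℂ) (V : Matrix (Fin n) (Fin k) ℂ),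
    Aᴴ * A = A * Aᴴ ∧ Bᴴ * B = B * Bᴴ ∧ Vᴴ * V = 1 ∧ A = Vᴴ * B * V ∧
    A.charpoly = ∏ i, (X - C (a i)) ∧ B.charpoly = ∏ j, (X - C (b j))

/-- the sub-tuple of `b` given by a set `S` of indices, in increasing order -/
noncomputable def sub {n : ℕ} (b : Fin n → ℂ) (S : Finset (Fin n)) : Fin S.card → ℂ :=
  fun i => b (S.orderEmbOfFin rfl i)

/-- The Caratheodory number of Q1, for every `k`: it is at most `(k + 1) (k + 2) / 2` and at least
`3 k`. First part: `(a, b)` is realizable iff `(a, b')` is, for some sub-tuple `b'` of `b` of length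
at most `(k + 1) (k + 2) / 2`. Second part: `3 k` entries of `b` are needed in general. -/
theorem result (k : ℕ) :
    (∀ (n : ℕ) (a : Fin k → ℂ) (b : Fin n → ℂ), Realizable a b ↔
      ∃ S : Finset (Fin n), S.card ≤ (k + 1) * (k + 2) / 2 ∧ Realizable a (sub b S)) ∧
    ∃ (a : Fin k → ℂ) (b : Fin (3 * k) → ℂ), Realizable a b ∧
      ∀ S : Finset (Fin (3 * k)), S.card < 3 * k → ¬ Realizable a (sub b S) := by
  constructor
  · intro n a b
    rw [show Realizable a b ↔ _ from Pool.Agent.Helper45.NC.realizable_iff a b,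
      Pool.Agent.MCT.f_FinalDil n k a b]
    refine exists_congr (fun S => and_congr_right (fun _ => ?_))
    exact (Pool.Agent.Helper45.NC.realizable_iff a (sub b S)).symm
  · obtain ⟨b, hb, hno⟩ := Pool.Agent.MCT.thm_Low3 k
    refine ⟨fun _ => 0, b, (Pool.Agent.Helper45.NC.realizable_iff _ b).2 hb, fun S hS hR => ?_⟩
    exact hno S hS ((Pool.Agent.Helper45.NC.realizable_iff _ (sub b S)).1 hR)

end Pool.Agent.Results.MP_ca8ee9_an.Caratheodory
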