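import Mathlib
import Pool.Agent.Helper45.NC.Final

set_option autoImplicit false
open scoped Matrix Polynomial

namespace Pool.Agent.Results.MP_ca8ee9_an.CodimTwo

open Matrix Polynomial

/-- The pair of tuples `(a, b)` is realizable: there are normal matrices `A` and `B` with
eigenvalues `a` and `b` (with multiplicity) such that `A` is a compression of `B`. -/
def Realizable {k n : ℕ} (a : Fin k → ℂ) (b : Fin n → ℂ) : Prop :=
  ∃ (A : Matrix (Fin k) (Fin k) ℂ) (B : Matrix (Fin n) (Fin n) ℂ) (V : Matrix (Fin n) (Fin k) ℂ),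
    Aᴴ * A = A * Aᴴ ∧ Bᴴ * B = B * Bᴴ ∧ Vᴴ * V = 1 ∧ A = Vᴴ * B * V ∧
    A.charpoly = ∏ i, (X - C (a i)) ∧ B.charpoly = ∏ j, (X - C (b j))

/-- The multiset of entries of a tuple. -/
def entries {k : ℕ} (a : Fin k → ℂ) : Multiset ℂ := (Finset.univ : Finset (Fin k)).val.map a

/-- The real multiset `T` has one element more than `S` and interlaces it: for every real `t`,
the number of elements of `T` above `t` is the number of elements of `S` above `t`, or one more. -/
def Interlaces (T S : Multiset ℝ) : Prop :=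
  T.card = S.card + 1 ∧ ∀ t : ℝ,
    (S.filter (fun s => t < s)).card ≤ (T.filter (fun s => t < s)).card ∧
    (T.filter (fun s => t < s)).card ≤ (S.filter (fun s => t < s)).card + 1

/-- `α` and `β` consist of a common part `δ` and of points of the real line `s ↦ z + s w`, and on
this line the points of `β` interlace the points of `α`. -/
def OnLine (α β : Multiset ℂ) : Prop :=
  ∃ (δ : Multiset ℂ) (S T : Multiset ℝ) (z w : ℂ), w ≠ 0 ∧
    α = δ + S.map (fun s : ℝ => z + (s : ℂ) * w) ∧
    β = δ + T.map (fun s : ℝ => z + (s : ℂ) * w) ∧ Interlaces T S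

/-- `α` and `β` consist of a common part `δ` and of points of the hyperbola
`s ↦ z + s u + v / s` (with `u` and `v` independent over the reals), and the parameters of the
points of `β` interlace the parameters of the points of `α` together with `0`. -/
def OnHyperbola (α β : Multiset ℂ) : Prop :=
  ∃ (δ : Multiset ℂ) (S T : Multiset ℝ) (z u v : ℂ), (u * star v).im ≠ 0 ∧
    (0 : ℝ) ∉ S ∧ (0 : ℝ) ∉ T ∧
    α = δ + S.map (fun s : ℝ => z + (s : ℂ) * u + (s : ℂ)⁻¹ * v) ∧
    β = δ + T.map (fun s : ℝ => z + (s : ℂ) * u + (s : ℂ)⁻¹ * v) ∧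
    Interlaces T (0 ::ₘ S)

/-- Complete solution of the case `n = k + 2`. -/
theorem result (k : ℕ) (a : Fin k → ℂ) (b : Fin (k + 2) → ℂ) :
    Realizable a b ↔
      (∃ γ : Multiset ℂ, OnLine (entries a) γ ∧ OnLine γ (entries b)) ∨
        OnHyperbola (entries a) (entries b) :=
  (Pool.Agent.Helper45.NC.realizable_iff a b).trans
    (Pool.Agent.Helper45.NC.dil_two_iff a b (by simp))

end Pool.Agent.Results.MP_ca8ee9_an.CodimTwo
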