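import Mathlib
import Pool.Agent.CMP.Main

set_option autoImplicit false
open scoped Matrix Polynomial

namespace Pool.Agent.Results.MP_ca8ee9_an.TwoEigenvalues

open Matrix Polynomial

/-- The pair of tuples `(a, b)` is realizable: there are normal matrices `A` and `B` with
eigenvalues `a` and `b` (with multiplicity) such that `A` is a compression of `B`. -/
def Realizable {k n : ℕ} (a : Fin k → ℂ) (b : Fin n → ℂ) : Prop :=
  ∃ (A : Matrix (Fin k) (Fin k) ℂ) (B : Matrix (Fin n) (Fin n) ℂ) (V : Matrix (Fin n) (Fin k) ℂ),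
    Aᴴ * A = A * Aᴴ ∧ Bᴴ * B = B * Bᴴ ∧ Vᴴ * V = 1 ∧ A = Vᴴ * B * V ∧
    A.charpoly = ∏ i, (X - C (a i)) ∧ B.charpoly = ∏ j, (X - C (b j))

/-- Number of negative eigenvalues, with multiplicity, of a real symmetric matrix: the number of
negative roots of its characteristic polynomial. -/
noncomputable def negCount {r : ℕ} (N : Matrix (Fin r) (Fin r) ℝ) : ℕ :=
  (N.charpoly.roots.filter (fun z => z < 0)).card

/-- Complete solution of the case `k = 2` (all `n`): `(a, b)` is realizable if and only if for
every real symmetric affine pencil `N(z) = N₀ + Re z N₁ + Im z N₂` of size two the two matrices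
`N(a j)` have in total at most as many negative eigenvalues as the `n` matrices `N(b l)`. -/
theorem result (n : ℕ) (a : Fin 2 → ℂ) (b : Fin n → ℂ) :
    Realizable a b ↔
      ∀ N₀ N₁ N₂ : Matrix (Fin 2) (Fin 2) ℝ, N₀.IsSymm → N₁.IsSymm → N₂.IsSymm →
        ∑ j, negCount (N₀ + (a j).re • N₁ + (a j).im • N₂) ≤
          ∑ l, negCount (N₀ + (b l).re • N₁ + (b l).im • N₂) :=
  (Pool.Agent.Helper45.NC.realizable_iff a b).trans (Pool.Agent.CMP.m_final n a b)

end Pool.Agent.Results.MP_ca8ee9_an.TwoEigenvalues
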